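import Pool.Agent.W_764f34_h80.Explicit

set_option autoImplicit false

/-!
# Sets with distinct pairwise products: explicit constants for the second-order term

`4 √2 e^(-3/4) ≤ liminf ≤ limsup ≤ 6 √3` for the ratio of the question (`2.672...` and `10.392...`).
-/

namespace Pool.Agent.Results.MP_764f34_nt.ExplicitBounds

open N884ee30a Filter Topology

theorem result : ∀ ε : ℝ, 0 < ε → ∀ᶠ n : ℕ in atTop,
    4 * Real.sqrt 2 * Real.exp (-(3 : ℝ) / 4) - ε ≤
      ((pairProductExtremal n : ℝ) - (Nat.primeCounting n : ℝ)) /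
        ((n : ℝ) ^ ((3 : ℝ) / 4) * (Real.log n) ^ (-(3 : ℝ) / 2)) ∧
    ((pairProductExtremal n : ℝ) - (Nat.primeCounting n : ℝ)) /
        ((n : ℝ) ^ ((3 : ℝ) / 4) * (Real.log n) ^ (-(3 : ℝ) / 2)) ≤ 6 * Real.sqrt 3 + ε :=
  Pool.Agent.W_764f34_h80.explicit_bounds

end Pool.Agent.Results.MP_764f34_nt.ExplicitBounds
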