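import Pool.Agent.W_764f34_h80.Final

set_option autoImplicit false

/-!
# Sets with distinct pairwise products: exact reduction of the second-order term

`F(n) = pairProductExtremal n` is the largest size of a set `A` of positive integers up to `n` with
distinct pairwise products. The upper limit, the lower limit and the limit of the ratio
`(F(n) - π(n)) / (n^(3/4) (log n)^(-3/2))` are `2 √2` times those of a Turan-type extremal problem
in which no primes occur: `ex K N` is the largest number of edges of a graph on the integers in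
`[N / K, K N]` whose edges `ij` carry labels `m(i, j)` in `{1, ..., K}` with `m(i, j) i j ≤ N^2` and
in which no 4-cycle `i j k l` satisfies `m(i, j) m(k, l) = m(j, k) m(l, i)`.
-/

namespace Pool.Agent.Results.MP_764f34_nt.LabelledReduction

open N884ee30a Filter Topology
open Pool.Agent.W_764f34_h80 (ex)

theorem result :
    (∀ c : ℝ,
      (∀ ε : ℝ, 0 < ε → ∀ᶠ n : ℕ in atTop,
        ((pairProductExtremal n : ℝ) - (Nat.primeCounting n : ℝ)) /
          ((n : ℝ) ^ ((3 : ℝ) / 4) * (Real.log n) ^ (-(3 : ℝ) / 2)) ≤ c + ε) ↔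
      (∀ ε : ℝ, 0 < ε → ∀ K : ℕ, ∀ᶠ N : ℕ in atTop,
        (ex K N : ℝ) / (N : ℝ) ^ ((3 : ℝ) / 2) ≤ c / (2 * Real.sqrt 2) + ε)) ∧
    (∀ c : ℝ,
      (∀ ε : ℝ, 0 < ε → ∀ᶠ n : ℕ in atTop,
        c - ε ≤ ((pairProductExtremal n : ℝ) - (Nat.primeCounting n : ℝ)) /
          ((n : ℝ) ^ ((3 : ℝ) / 4) * (Real.log n) ^ (-(3 : ℝ) / 2))) ↔
      (∀ ε : ℝ, 0 < ε → ∀ᶠ K : ℕ in atTop, ∀ᶠ N : ℕ in atTop,
        c / (2 * Real.sqrt 2) - ε ≤ (ex K N : ℝ) / (N : ℝ) ^ ((3 : ℝ) / 2))) ∧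
    ((∃ c : ℝ, 0 < c ∧ Tendsto (fun n : ℕ =>
        ((pairProductExtremal n : ℝ) - (Nat.primeCounting n : ℝ)) /
          ((n : ℝ) ^ ((3 : ℝ) / 4) * (Real.log n) ^ (-(3 : ℝ) / 2))) atTop (𝓝 c)) ↔
      (∃ l : ℝ, 0 < l ∧ ∀ ε : ℝ, 0 < ε → ∀ᶠ K : ℕ in atTop, ∀ᶠ N : ℕ in atTop,
        |(ex K N : ℝ) / (N : ℝ) ^ ((3 : ℝ) / 2) - l| ≤ ε)) :=
  ⟨Pool.Agent.W_764f34_h80.upper_iff, Pool.Agent.W_764f34_h80.lower_iff,
    Pool.Agent.W_764f34_h80.question_iff⟩

end Pool.Agent.Results.MP_764f34_nt.LabelledReduction
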