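import Pool.Agent.W_764f34_h80.LocalR

set_option autoImplicit false

/-!
# Sets with distinct pairwise products: where the second-order term comes from

Apart from `π(n) + O(K^(-1/4)) n^(3/4) (log n)^(-3/2)` elements, every set of positive integers up to
`n` with distinct pairwise products consists of core numbers `m p q`, `m ≤ K`, `p < q` primes in
`[√n / K, K √n]`; and the extremal function is `π(n)` plus the extremal function for sets of core
numbers, up to the same error.
-/

namespace Pool.Agent.Results.MP_764f34_nt.Localisation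

open N884ee30a Filter Topology
open Pool.Agent.W_764f34_h80 (Core coreMax)

open Classical in
theorem result : ∃ C : ℝ, 0 < C ∧ ∀ K : ℕ, 1 ≤ K → ∀ᶠ n : ℕ in atTop,
    (∀ A : Finset ℕ, A ⊆ Finset.Icc 1 n → PairProductDistinct A →
      ((A.filter (fun a => ¬ Core K n a)).card : ℝ) ≤ (Nat.primeCounting n : ℝ) +
        C * (K : ℝ) ^ (-(1 : ℝ) / 4) *
          ((n : ℝ) ^ ((3 : ℝ) / 4) * (Real.log n) ^ (-(3 : ℝ) / 2))) ∧
    |(pairProductExtremal n : ℝ) - Nat.primeCounting n - coreMax K n| ≤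
      C * (K : ℝ) ^ (-(1 : ℝ) / 4) *
        ((n : ℝ) ^ ((3 : ℝ) / 4) * (Real.log n) ^ (-(3 : ℝ) / 2)) := by
  obtain ⟨C1, h1, H1⟩ := Pool.Agent.W_764f34_h80.local_struct
  obtain ⟨C2, h2, H2⟩ := Pool.Agent.W_764f34_h80.local_quant
  refine ⟨C1 + C2, by positivity, fun K hK => ?_⟩
  filter_upwards [H1 K hK, H2 K hK, eventually_ge_atTop 2] with n a1 a2 a3
  have hs := Pool.Agent.W_764f34_h80.scale_pos a3
  have hK0 : (0 : ℝ) < K := by exact_mod_cast hK
  have hp : 0 < (K : ℝ) ^ (-(1 : ℝ) / 4) * Pool.Agent.W_764f34_h80.scale n := by positivity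
  constructor
  · intro A hA hd
    refine (a1 A hA hd).trans ?_
    show _ ≤ (Nat.primeCounting n : ℝ) +
      (C1 + C2) * (K : ℝ) ^ (-(1 : ℝ) / 4) * Pool.Agent.W_764f34_h80.scale n
    nlinarith
  · refine a2.trans ?_
    show _ ≤ (C1 + C2) * (K : ℝ) ^ (-(1 : ℝ) / 4) * Pool.Agent.W_764f34_h80.scale n
    nlinarith

end Pool.Agent.Results.MP_764f34_nt.Localisation
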